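import Pool.Agent.L7h41.LC.Stm

set_option autoImplicit false

namespace Pool.Agent.L7h27.LC

open Pool.Agent.L7h41.LC Finset

open Classical in
lemma image_card {n : ℕ} (cl : Fin n → Fin n) :
    ((univ.image cl).card : ℝ) = ∑ x : Fin n, 1 / ((univ.filter (fun y => cl y = cl x)).card : ℝ) := by
  rw [← Finset.sum_fiberwise_of_maps_to (s := univ) (t := univ.image cl) (g := cl)
    (fun x _ => Finset.mem_image_of_mem cl (Finset.mem_univ x)), Finset.card_eq_sum_ones]
  push_cast
  apply Finset.sum_congr rfl
  intro h hh
  have h1 : ∀ x ∈ univ.filter (fun x => cl x = h), 1 / ((univ.filter (fun y => cl y = cl x)).card : ℝ) =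
      1 / ((univ.filter (fun y => cl y = h)).card : ℝ) := by
    intro x hx
    rw [(Finset.mem_filter.1 hx).2]
  rw [Finset.sum_congr rfl h1, Finset.sum_const, nsmul_eq_mul, mul_one_div_cancel]
  obtain ⟨x, -, hx⟩ := Finset.mem_image.1 hh
  have h2 : 0 < (univ.filter (fun y => cl y = h)).card := Finset.card_pos.2 ⟨x, by simp [hx]⟩
  exact_mod_cast h2.ne'

open Classical in
lemma side_sum {n : ℕ} (cl : Fin n → Fin n) (c : Fin n → Bool) (M : ℕ) :
    ∑ x : Fin n, (if (univ.filter (fun y => cl y = cl x)).card ≤ M then
      ((univ.filter (fun y => cl y = cl x ∧ c y ≠ c x)).card : ℝ) else 0) ≤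
    ∑ x : Fin n, (if (univ.filter (fun y => cl y = cl x)).card ≤ M then
      ((univ.filter (fun y => cl y = cl x)).card : ℝ) / 2 else 0) := by
  rw [← Finset.sum_fiberwise univ cl, ← Finset.sum_fiberwise univ cl (fun x => if
    (univ.filter (fun y => cl y = cl x)).card ≤ M then ((univ.filter (fun y => cl y = cl x)).card : ℝ) / 2 else 0)]
  apply Finset.sum_le_sum
  intro h _
  set F := univ.filter (fun x => cl x = h) with hF
  by_cases hM : F.card ≤ M
  · have e1 : ∀ x ∈ F, (if (univ.filter (fun y => cl y = cl x)).card ≤ M then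
        ((univ.filter (fun y => cl y = cl x ∧ c y ≠ c x)).card : ℝ) else 0) =
        if c x = true then ((F.filter (fun y => ¬ c y = true)).card : ℝ) else ((F.filter (fun y => c y = true)).card : ℝ) := by
      intro x hx
      have hx' : cl x = h := (Finset.mem_filter.1 hx).2
      rw [hx', if_pos hM]
      by_cases hc : c x = true
      · rw [if_pos hc]
        congr 2
        ext y
        simp [hF, hc]
      · rw [if_neg hc]
        congr 2
        ext y
        simp only [Bool.not_eq_true] at hc
        simp [hF, hc]
    have e2 : ∀ x ∈ F, (if (univ.filter (fun y => cl y = cl x)).card ≤ M then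
        ((univ.filter (fun y => cl y = cl x)).card : ℝ) / 2 else 0) = (F.card : ℝ) / 2 := by
      intro x hx
      have hx' : cl x = h := (Finset.mem_filter.1 hx).2
      rw [hx', if_pos hM]
    rw [Finset.sum_congr rfl e1, Finset.sum_congr rfl e2, Finset.sum_ite, Finset.sum_const, Finset.sum_const,
      Finset.sum_const, nsmul_eq_mul, nsmul_eq_mul, nsmul_eq_mul]
    have h3 : (F.card : ℝ) = ((F.filter (fun y => c y = true)).card : ℝ) + ((F.filter (fun y => ¬ c y = true)).card : ℝ) := by
      have := Finset.card_filter_add_card_filter_not (s := F) (fun y => c y = true)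
      exact_mod_cast this.symm
    rw [h3]
    nlinarith [sq_nonneg (((F.filter (fun y => c y = true)).card : ℝ) - ((F.filter (fun y => ¬ c y = true)).card : ℝ))]
  · have e1 : ∀ x ∈ F, (if (univ.filter (fun y => cl y = cl x)).card ≤ M then
        ((univ.filter (fun y => cl y = cl x ∧ c y ≠ c x)).card : ℝ) else 0) = 0 := by
      intro x hx
      have hx' : cl x = h := (Finset.mem_filter.1 hx).2
      rw [hx', if_neg hM]
    have e2 : ∀ x ∈ F, (if (univ.filter (fun y => cl y = cl x)).card ≤ M then
        ((univ.filter (fun y => cl y = cl x)).card : ℝ) / 2 else 0) = 0 := by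
      intro x hx
      have hx' : cl x = h := (Finset.mem_filter.1 hx).2
      rw [hx', if_neg hM]
    rw [Finset.sum_congr rfl e1, Finset.sum_congr rfl e2]

open Classical in
lemma pair_sum {n : ℕ} (X : Fin n → Fin n → Prop) :
    ∑ x : Fin n, (univ.filter (fun y => X x y)).card = (univ.filter (fun p : Fin n × Fin n => X p.1 p.2)).card := by
  rw [Finset.card_filter, Fintype.sum_prod_type]
  apply Finset.sum_congr rfl
  intro x _
  rw [Finset.card_filter]

theorem s_DEG : S_DEG := by
  classical
  intro n k G cl c X hD M
  have h1 : ∑ x, (mu cl c X M x : ℝ) = ∑ i, ∑ x, (((univ.filter (fun y => X i x y)).card : ℝ) +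
      if sz cl i x ≤ M then ((univ.filter (fun y => cl i y = cl i x ∧ c i y ≠ c i x)).card : ℝ) else 0) := by
    rw [Finset.sum_comm]
    apply Finset.sum_congr rfl
    intro x _
    unfold mu
    push_cast
    apply Finset.sum_congr rfl
    intro i _
    congr 1
    all_goals first | rfl | (split_ifs <;> first | rfl | congr!) | congr!
  rw [h1]
  apply Finset.sum_le_sum
  intro i _
  rw [Finset.sum_add_distrib, Finset.sum_add_distrib]
  apply add_le_add
  · have h2 := (hD i).few
    have h3 := pair_sum (X i)
    have h4 := image_card (cl i)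
    have h5 : (∑ x : Fin n, ((univ.filter (fun y => X i x y)).card : ℝ)) ≤ 4 * ((univ.image (cl i)).card : ℝ) := by
      have h6 : (∑ x : Fin n, (univ.filter (fun y => X i x y)).card) ≤ 4 * (univ.image (cl i)).card := by
        rw [h3]
        refine le_trans h2 (le_of_eq ?_)
        congr!
      exact_mod_cast h6
    calc (∑ x : Fin n, ((univ.filter (fun y => X i x y)).card : ℝ)) ≤ 4 * ((univ.image (cl i)).card : ℝ) := h5
      _ = ∑ x : Fin n, 4 / (sz cl i x : ℝ) := by
        rw [h4, Finset.mul_sum]
        apply Finset.sum_congr rfl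
        intro x _
        unfold sz
        rw [mul_one_div]
  · exact side_sum (cl i) (c i) M

end Pool.Agent.L7h27.LC
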